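import Pool.Agent.helper74.VD.SpecA4

/-!
# Project VD (MP_07c750_an), row AUSD: Schur bounds of the unit step kernel
-/

set_option autoImplicit false

open scoped ContDiff Topology InnerProductSpace ComplexConjugate ENNReal
open MeasureTheory Filter Set

namespace Pool.Agent.VD

open Pool.Agent.VQ (CH cmZ)

noncomputable section

theorem AUSD_int {α : Type} [MeasurableSpace α] (μ : Measure α) (f : α → ℂ) (S : Set α) (c v w w' : ℝ) (hc : 0 ≤ c)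
    (hf : ∀ a, ‖f a‖ ≤ c) (hS : ∀ a, f a ≠ 0 → a ∈ S) (hv : μ S ≤ ENNReal.ofReal v) (h1 : c * v ≤ w) (h2 : c ^ 2 * v ≤ w') :
    ∫⁻ a, ‖f a‖ₑ ∂μ ≤ ENNReal.ofReal w ∧ ∫⁻ a, ‖f a‖ₑ ^ 2 ∂μ ≤ ENNReal.ofReal w' := by
  have he : ∀ a, ‖f a‖ₑ ≤ ENNReal.ofReal c := fun a => by
    rw [← ofReal_norm]
    exact ENNReal.ofReal_le_ofReal (hf a)
  constructor
  · have h3 : ∀ a, ‖f a‖ₑ ≤ S.indicator (fun _ => ENNReal.ofReal c) a := by
      intro a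
      by_cases h : f a = 0
      · rw [h, enorm_zero]
        exact bot_le
      · rw [indicator_of_mem (hS a h)]
        exact he a
    refine (lintegral_mono h3).trans ((lintegral_indicator_const_le _ _).trans ?_)
    refine (mul_le_mul_right hv _).trans ?_
    rw [← ENNReal.ofReal_mul hc]
    exact ENNReal.ofReal_le_ofReal h1
  · have h3 : ∀ a, ‖f a‖ₑ ^ 2 ≤ S.indicator (fun _ => ENNReal.ofReal (c ^ 2)) a := by
      intro a
      by_cases h : f a = 0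
      · rw [h, enorm_zero, zero_pow two_ne_zero]
        exact bot_le
      · rw [indicator_of_mem (hS a h), ENNReal.ofReal_pow hc]
        exact pow_le_pow_left' (he a) 2
    refine (lintegral_mono h3).trans ((lintegral_indicator_const_le _ _).trans ?_)
    refine (mul_le_mul_right hv _).trans ?_
    rw [← ENNReal.ofReal_mul (sq_nonneg c)]
    exact ENNReal.ofReal_le_ofReal h2

theorem AUSD_pow (d : ℕ) (R z1 z2 C1 c0 C : ℝ) (hR : 1 ≤ R) (hz2 : 0 < z2) (h1 : C1 * z1 ≤ z2) (hc : c0 ≤ R ^ z2)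
    (hC : 2 * (d : ℝ) + 3 ≤ C) :
    R ^ ((d : ℝ) + C1 * z1) * (c0 * (R ^ (-(1 / 2) + z2)) ^ (2 * d)) ≤ R ^ (C * z2) ∧
      (R ^ ((d : ℝ) + C1 * z1)) ^ 2 * (c0 * (R ^ (-(1 / 2) + z2)) ^ (2 * d)) ≤ R ^ ((d : ℝ) + C * z2) := by
  have hR0 : 0 < R := by linarith
  have hd : (0 : ℝ) ≤ d := Nat.cast_nonneg d
  have h2 : (R ^ (-(1 / 2) + z2)) ^ (2 * d) = R ^ (-(d : ℝ) + 2 * d * z2) := by
    rw [← Real.rpow_natCast, ← Real.rpow_mul hR0.le]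
    congr 1
    push_cast
    ring
  have h3 : c0 * (R ^ (-(1 / 2) + z2)) ^ (2 * d) ≤ R ^ (z2 + (-(d : ℝ) + 2 * d * z2)) := by
    rw [h2, Real.rpow_add hR0 z2]
    exact mul_le_mul_of_nonneg_right hc (Real.rpow_nonneg hR0.le _)
  constructor
  · refine (mul_le_mul_of_nonneg_left h3 (Real.rpow_nonneg hR0.le _)).trans ?_
    rw [← Real.rpow_add hR0]
    refine Real.rpow_le_rpow_of_exponent_le hR ?_
    nlinarith
  · refine (mul_le_mul_of_nonneg_left h3 (by positivity)).trans ?_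
    rw [← Real.rpow_natCast, ← Real.rpow_mul hR0.le, ← Real.rpow_add hR0]
    refine Real.rpow_le_rpow_of_exponent_le hR ?_
    push_cast
    nlinarith

theorem AUSD_adm {C C' : ℝ} {A : Par} (hC : C' ≤ C) (hC' : 1 ≤ C') (h : Adm C A) : Adm C' A ∧ 0 < A.z1 ∧ 0 < A.z2 ∧
    A.z ≤ A.z1 ∧ A.z2 ≤ 1 / C := by
  have hC0 : 0 < C := by linarith
  have h1 : 0 < A.z1 := lt_of_lt_of_le (mul_pos hC0 h.z) h.z1
  have h2 : 0 < A.z2 := lt_of_lt_of_le (mul_pos hC0 h1) h.z2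
  refine ⟨⟨h.e2, ?_, h.z, ?_, ?_, ?_⟩, h1, h2, ?_, ?_⟩
  · exact (mul_le_mul_of_nonneg_right hC h.e2.le).trans h.e2'
  · exact (mul_le_mul_of_nonneg_right hC h.z.le).trans h.z1
  · exact (mul_le_mul_of_nonneg_right hC h1.le).trans h.z2
  · exact (mul_le_mul_of_nonneg_right hC h2.le).trans h.up
  · have := h.z1
    have h3 := h.z
    nlinarith
  · rw [le_div_iff₀ hC0, mul_comm]
    exact h.up

theorem AUSD_SG {Γ : Type} {d : ℕ} [Group Γ] [MulAction Γ (V d)] {r r' : ℝ} (h : r ≤ r') {γ : Γ} (hγ : γ ∈ SG Γ d r) :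
    γ ∈ SG Γ d r' := by
  obtain ⟨x, h1, h2⟩ := hγ
  exact ⟨x, h1.trans h, h2.trans h⟩

theorem AUSD_inv {Γ : Type} {d : ℕ} [Group Γ] [MulAction Γ (V d)] {r : ℝ} {γ : Γ} (hγ : γ ∈ SG Γ d r) :
    γ⁻¹ ∈ SG Γ d r := by
  obtain ⟨x, h1, h2⟩ := hγ
  exact ⟨γ • x, h2, by rwa [inv_smul_smul]⟩

theorem AUSD_proof (hAULD : AULD_stmt) (hAVOL : AVOL_stmt) (hAUMD : AUMD_stmt) (hASGF : ASGF_stmt) (hALFX : ALFX_stmt) :
    AUSD_stmt := by
  intro d Γ _ _ K k B r0 χ hK hPU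
  obtain ⟨C1, hC1, hL⟩ := hAULD d Γ K k B r0 χ hK hPU
  obtain ⟨C2, hC2, hM⟩ := hAUMD d Γ K k B r0 χ hK hPU
  obtain ⟨C3, hC3, hV⟩ := hAVOL d Γ K k B r0 (max C2 r0) hK
  obtain ⟨-, -, C5, hC5, hS1⟩ := hASGF d Γ K hK (max (max C2 r0) C3) 0
  obtain ⟨-, hinv, C4, hC4, hS2⟩ := hASGF d Γ K hK (max (max (max C2 r0) C3) (C5 + 1)) 0
  have hc0 : 0 ≤ C3 * C4 ^ (2 * d) := by positivity
  have hCC : 1 ≤ max (max C1 C2) (2 * (d : ℝ) + 3) := (hC1.trans (le_max_left _ _)).trans (le_max_left _ _)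
  refine ⟨max (max C1 C2) (2 * (d : ℝ) + 3), hCC, fun ch A hch hA => ?_⟩
  obtain ⟨hA1, hz1, hz2, hzz1, -⟩ := AUSD_adm ((le_max_left C1 C2).trans (le_max_left _ _)) hC1 hA
  obtain ⟨hA2, -⟩ := AUSD_adm ((le_max_right C1 C2).trans (le_max_left _ _)) hC2 hA
  obtain ⟨RL, hRL, hL⟩ := hL ch A.z A.z1 0 hch hA.z hzz1 (by
    have h1 := hA1.z2
    have h2 := hA1.up
    nlinarith)
  obtain ⟨RM, hRM, hM⟩ := hM ch A hch hA2
  refine ⟨max (max RL RM) ((C3 * C4 ^ (2 * d)) ^ (1 / A.z2)), (hRL.trans (le_max_left _ _)).trans (le_max_left _ _),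
    fun R G Φ hR hO => ?_⟩
  have hR1 : RL ≤ R := ((le_max_left _ _).trans (le_max_left _ _)).trans hR
  have hR2 : RM ≤ R := ((le_max_right _ _).trans (le_max_left _ _)).trans hR
  have hR3 : (C3 * C4 ^ (2 * d)) ^ (1 / A.z2) ≤ R := (le_max_right _ _).trans hR
  have hR1' : 1 ≤ R := hRL.trans hR1
  have hR0 : 0 < R := by linarith
  have hcR : C3 * C4 ^ (2 * d) ≤ R ^ A.z2 := by
    have h1 := Real.rpow_le_rpow (Real.rpow_nonneg hc0 _) hR3 hz2.le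
    rwa [← Real.rpow_mul hc0, one_div, inv_mul_cancel₀ hz2.ne', Real.rpow_one] at h1
  have hcR' : C3 ≤ R ^ A.z2 := by
    refine le_trans ?_ hcR
    exact le_mul_of_one_le_right (by linarith) (one_le_pow₀ hC4)
  obtain ⟨-, -, hsupp, -⟩ := hM R G Φ hR2 hO
  -- the pointwise bound
  have hbd : ∀ y y' : YS Γ d, ‖us G Φ r0 χ ch A R y y'‖ ≤ R ^ ((d : ℝ) + C1 * A.z1) := by
    intro y y'
    unfold us
    split_ifs with h
    · exact (hL R 1 G Φ y y' hR1 hO (by norm_num) h.1 h.2.1).1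
    · rw [norm_zero]
      exact Real.rpow_nonneg hR0.le _
  have hrpos : 0 < A.r R := Real.rpow_pos_of_pos hR0 _
  have hr1 : A.r R ≤ 1 := by
    refine Real.rpow_le_one_of_one_le_of_nonpos hR1' ?_
    have h1 := hA.up
    have h2 : (3 : ℝ) ≤ max (max C1 C2) (2 * (d : ℝ) + 3) := by
      refine le_trans ?_ (le_max_right _ _)
      have : (0 : ℝ) ≤ d := Nat.cast_nonneg d
      linarith
    nlinarith
  refine ⟨fun y y' => (hbd y y').trans ?_, fun y => ?_, fun y' => ?_⟩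
  · refine Real.rpow_le_rpow_of_exponent_le hR1' ?_
    have h1 : C1 ≤ max (max C1 C2) (2 * (d : ℝ) + 3) := (le_max_left _ _).trans (le_max_left _ _)
    have h2 := mul_le_mul_of_nonneg_right h1 hz1.le
    linarith
  · -- `y` fixed
    obtain ⟨p1, p2⟩ := AUSD_pow d R A.z1 A.z2 C1 C3 (max (max C1 C2) (2 * (d : ℝ) + 3)) hR1' hz2 hA1.z2 hcR' (le_max_right _ _)
    refine AUSD_int (mY Γ d) (fun y' => us G Φ r0 χ ch A R y y') _ _ _ _ _ (Real.rpow_nonneg hR0.le _) (fun y' => hbd y y')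
      (fun y' h => ?_) (hV R G Φ hR1' hO y (Φ 1 y.2) 0 (A.r R) hrpos).1 p1 p2
    obtain ⟨⟨h1, h2, h3⟩, h4⟩ := hsupp y y' h
    refine ⟨h2, AUSD_SG (le_max_left _ _) h4, ?_⟩
    rw [hO.flow.zero]
    exact h3
  · -- `y'` fixed
    obtain ⟨p1, p2⟩ := AUSD_pow d R A.z1 A.z2 C1 (C3 * C4 ^ (2 * d)) (max (max C1 C2) (2 * (d : ℝ) + 3)) hR1' hz2 hA1.z2 hcR
      (le_max_right _ _)
    have hV' := (hV R G Φ hR1' hO y' y'.2 1 (C4 * A.r R) (by positivity)).1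
    rw [mul_pow, ← mul_assoc] at hV'
    refine AUSD_int (mY Γ d) (fun y => us G Φ r0 χ ch A R y y') _ _ _ _ _ (Real.rpow_nonneg hR0.le _) (fun y => hbd y y')
      (fun y h => ?_) hV' p1 p2
    obtain ⟨⟨h1, h2, h3⟩, h4⟩ := hsupp y y' h
    obtain ⟨-, hl1, hlm, -⟩ := hALFX d Γ K k B G Φ hO
    have hk1 : y.1⁻¹ * y'.1 ∈ SG Γ d (max (max C2 r0) C3) := AUSD_SG ((le_max_left _ _).trans (le_max_left _ _)) h4
    have hk : (y.1⁻¹ * y'.1)⁻¹ = y'.1⁻¹ * y.1 := by group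
    have hk2 : y'.1⁻¹ * y.1 ∈ SG Γ d (max C2 r0) := by
      rw [← hk]
      exact AUSD_inv (AUSD_SG (le_max_left _ _) h4)
    have hρ0 : (0 : ℝ) ≤ max (max C2 r0) C3 := by
      refine le_trans ?_ (le_max_right _ _)
      linarith
    have hρ1 : max (max C2 r0) C3 ≤ max (max (max C2 r0) C3) (C5 + 1) := le_max_left _ _
    have hρ2 : C5 + 1 ≤ max (max (max C2 r0) C3) (C5 + 1) := le_max_right _ _
    -- the bound of `y'.2`
    have hy1 : ‖y'.2.1‖ ≤ max C2 r0 := h2.1.trans (le_max_right _ _)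
    have hE : |Ep G y'.2| ≤ 2 := by
      refine h2.2.trans ?_
      have h5 : R ^ (-(1 / 4) : ℝ) ≤ 1 := Real.rpow_le_one_of_one_le_of_nonpos hR1' (by norm_num)
      linarith
    have hy2 : ‖y'.2.2‖ ≤ C3 := (hV R G Φ hR1' hO y y'.2 0 1 one_pos).2.2 y'.2 hy1 hE
    have hq : ‖(lft (y.1⁻¹ * y'.1) y'.2 : P d)‖ ≤ C5 :=
      ((hS1 _ hk1 0 (by rw [norm_zero]; exact hρ0)).2.2.2 y'.2 y'.2 (hy1.trans (le_max_left _ _)) (hy1.trans (le_max_left _ _))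
        (hy2.trans (le_max_right _ _)) (hy2.trans (le_max_right _ _))).1
    have hd1 : dist (Φ 1 y.2) (lft (y.1⁻¹ * y'.1) y'.2) < A.r R := h3
    have hp : ‖Φ 1 y.2‖ ≤ C5 + 1 := by
      have h5 : ‖Φ 1 y.2‖ ≤ ‖(lft (y.1⁻¹ * y'.1) y'.2 : P d)‖ + ‖Φ 1 y.2 - lft (y.1⁻¹ * y'.1) y'.2‖ := norm_le_norm_add_norm_sub' _ _
      rw [← dist_eq_norm] at h5
      linarith
    have hpn1 : ‖(Φ 1 y.2).1‖ ≤ max (max (max C2 r0) C3) (C5 + 1) := ((norm_fst_le _).trans hp).trans hρ2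
    have hpn2 : ‖(Φ 1 y.2).2‖ ≤ max (max (max C2 r0) C3) (C5 + 1) := ((norm_snd_le _).trans hp).trans hρ2
    have hq' : ‖(lft (y.1⁻¹ * y'.1) y'.2 : P d)‖ ≤ max (max (max C2 r0) C3) (C5 + 1) := by
      refine le_trans ?_ hρ2
      linarith
    have hd2 := ((hS2 (y'.1⁻¹ * y.1) (AUSD_SG ((le_max_left _ _).trans hρ1) hk2) 0
      (by rw [norm_zero]; exact hρ0.trans hρ1)).2.2.2 (lft (y.1⁻¹ * y'.1) y'.2) (Φ 1 y.2) ((norm_fst_le _).trans hq') hpn1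
        ((norm_snd_le _).trans hq') hpn2).2.1
    have hid : (lft (y'.1⁻¹ * y.1) (lft (y.1⁻¹ * y'.1) y'.2) : P d) = y'.2 := by
      rw [← hlm, ← hk, inv_mul_cancel, hl1]
    rw [hid, dist_comm (lft (y.1⁻¹ * y'.1) y'.2 : P d)] at hd2
    refine ⟨h1, hk2, lt_of_le_of_lt hd2 ?_⟩
    exact mul_lt_mul_of_pos_left hd1 (by linarith)

end

end Pool.Agent.VD
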