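import Pool.Agent.helper80.VD.SpecF

/-!
# Project VD (MP_07c750_an), row GUX: uniform bounds of the Hamiltonian field
-/

set_option autoImplicit false

open scoped ContDiff Topology InnerProductSpace
open MeasureTheory Filter Set

namespace Pool.Agent.VD

noncomputable section

/-- the space of the values of `(IG, fderiv IG, ξ)` -/
abbrev GUX_W (d : ℕ) : Type := (V d →L[ℝ] V d) × (V d →L[ℝ] V d →L[ℝ] V d) × V d

/-- the field as a function of `(IG, fderiv IG, ξ)` -/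
def GUX_L (d : ℕ) (w : GUX_W d) : P d :=
  (w.1 w.2.2, ∑ i : Fin d, (-(⟪w.2.1 (EuclideanSpace.basisFun (Fin d) ℝ i) w.2.2, w.2.2⟫_ℝ / 2)) •
    EuclideanSpace.basisFun (Fin d) ℝ i)

theorem GUX_smooth (d : ℕ) : ContDiff ℝ ∞ (GUX_L d) := by
  have h2 : ContDiff ℝ ∞ fun w : GUX_W d => w.2.2 := contDiff_snd.comp contDiff_snd
  refine ContDiff.prodMk (contDiff_fst.clm_apply h2) (ContDiff.sum fun i _ => ?_)
  have h3 : ContDiff ℝ ∞ fun w : GUX_W d => w.2.1 (EuclideanSpace.basisFun (Fin d) ℝ i) :=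
    (contDiff_fst.comp contDiff_snd).clm_apply contDiff_const
  exact (((h3.clm_apply h2).inner ℝ h2).div_const 2).neg.smul contDiff_const

/-- a smooth function has bounded derivatives on balls -/
theorem GUX_ball {W Y : Type} [NormedAddCommGroup W] [NormedSpace ℝ W] [FiniteDimensional ℝ W]
    [NormedAddCommGroup Y] [NormedSpace ℝ Y] (f : W → Y) (hf : ContDiff ℝ ∞ f) (n : ℕ) (R : ℝ) :
    ∃ C : ℝ, ∀ i ≤ n, ∀ w : W, ‖w‖ ≤ R → ‖iteratedFDeriv ℝ i f w‖ ≤ C := by
  have hp : ProperSpace W := FiniteDimensional.proper ℝ W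
  induction n with
  | zero =>
    obtain ⟨C, hC⟩ := (isCompact_closedBall (0 : W) R).exists_bound_of_continuousOn
      (hf.continuous_iteratedFDeriv (m := 0) (by exact_mod_cast le_top)).continuousOn
    refine ⟨C, fun i hi w hw => ?_⟩
    obtain rfl : i = 0 := Nat.le_zero.1 hi
    exact hC w (by simpa using hw)
  | succ n ih =>
    obtain ⟨C, hC⟩ := ih
    obtain ⟨C', hC'⟩ := (isCompact_closedBall (0 : W) R).exists_bound_of_continuousOn
      (hf.continuous_iteratedFDeriv (m := n + 1) (by exact_mod_cast le_top)).continuousOn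
    refine ⟨max C C', fun i hi w hw => ?_⟩
    rcases Nat.lt_or_ge n i with h | h
    · obtain rfl : i = n + 1 := by omega
      exact (hC' w (by simpa using hw)).trans (le_max_right _ _)
    · exact (hC i h w hw).trans (le_max_left _ _)

/-- composition with the first projection -/
theorem GUX_fst {d : ℕ} {Y : Type} [NormedAddCommGroup Y] [NormedSpace ℝ Y] (f : V d → Y) (hf : ContDiff ℝ ∞ f)
    (p : P d) (i : ℕ) : ‖iteratedFDeriv ℝ i (fun q : P d => f q.1) p‖ ≤ ‖iteratedFDeriv ℝ i f p.1‖ := by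
  have h1 := ContinuousLinearMap.iteratedFDeriv_comp_right (ContinuousLinearMap.fst ℝ (V d) (V d)) hf p
    (i := i) (by exact_mod_cast le_top)
  have h2 : iteratedFDeriv ℝ i (fun q : P d => f q.1) p =
      (iteratedFDeriv ℝ i f p.1).compContinuousLinearMap fun _ => ContinuousLinearMap.fst ℝ (V d) (V d) := h1
  rw [h2]
  refine (ContinuousMultilinearMap.norm_compContinuousLinearMap_le _ _).trans ?_
  have h3 : (∏ _j : Fin i, ‖ContinuousLinearMap.fst ℝ (V d) (V d)‖) ≤ 1 :=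
    Finset.prod_le_one (fun _ _ => norm_nonneg _) fun _ _ => ContinuousLinearMap.norm_fst_le ℝ (V d) (V d)
  exact mul_le_of_le_one_right (norm_nonneg _) h3

/-- the derivatives of a pair -/
theorem GUX_prod {E Y Z : Type} [NormedAddCommGroup E] [NormedSpace ℝ E] [NormedAddCommGroup Y] [NormedSpace ℝ Y]
    [NormedAddCommGroup Z] [NormedSpace ℝ Z] (f : E → Y) (g : E → Z) (hf : ContDiff ℝ ∞ f) (hg : ContDiff ℝ ∞ g)
    (p : E) (i : ℕ) (C : ℝ) (h1 : ‖iteratedFDeriv ℝ i f p‖ ≤ C) (h2 : ‖iteratedFDeriv ℝ i g p‖ ≤ C) :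
    ‖iteratedFDeriv ℝ i (fun q => (f q, g q)) p‖ ≤ C := by
  rw [iteratedFDeriv_prodMk (n := ∞) hf.contDiffAt hg.contDiffAt (by exact_mod_cast le_top),
    ContinuousMultilinearMap.opNorm_prod]
  exact max_le h1 h2

/-- the derivatives of the second projection -/
theorem GUX_snd {d : ℕ} (p : P d) (i : ℕ) (hi : 1 ≤ i) : ‖iteratedFDeriv ℝ i (fun q : P d => q.2) p‖ ≤ 1 := by
  obtain ⟨j, rfl⟩ : ∃ j, i = j + 1 := ⟨i - 1, by omega⟩
  rw [← norm_iteratedFDeriv_fderiv]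
  have h1 : fderiv ℝ (fun q : P d => q.2) = fun _ => ContinuousLinearMap.snd ℝ (V d) (V d) := by
    ext1 q
    exact (ContinuousLinearMap.snd ℝ (V d) (V d)).fderiv
  rw [h1]
  rcases Nat.eq_zero_or_pos j with rfl | hj
  · rw [norm_iteratedFDeriv_zero]
    exact ContinuousLinearMap.norm_snd_le ℝ (V d) (V d)
  · rw [iteratedFDeriv_const_of_ne (by omega)]
    simp

theorem GUX_proof (hGUI : GUI_stmt) (hGXH : GXH_stmt) (hGIN : GIN_stmt) : GUX_stmt := by
  intro d B m n r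
  -- the bounds of the derivatives of `IG`
  have hC : ∀ k : ℕ, ∃ C : ℝ, 0 ≤ C ∧ ∀ i ≤ k, ∀ G : V d → V d →L[ℝ] V d, IsMetric G →
      (∀ (m : ℕ) (x u : V d), ‖x‖ ≤ m → ‖u‖ ^ 2 ≤ B m 0 * ⟪G x u, u⟫_ℝ) →
      (∀ (m n : ℕ) (x : V d), ‖x‖ ≤ m → ‖iteratedFDeriv ℝ n G x‖ ≤ B m n) →
      ∀ x : V d, ‖x‖ ≤ m → ‖iteratedFDeriv ℝ i (IG G) x‖ ≤ C := by
    intro k
    induction k with
    | zero =>
      obtain ⟨C, hC⟩ := hGUI d B m 0
      refine ⟨max C 0, le_max_right _ _, fun i hi G hG h1 h2 x hx => ?_⟩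
      obtain rfl : i = 0 := Nat.le_zero.1 hi
      exact (hC G hG h1 h2 x hx).trans (le_max_left _ _)
    | succ k ih =>
      obtain ⟨C, hC0, hC⟩ := ih
      obtain ⟨C', hC'⟩ := hGUI d B m (k + 1)
      refine ⟨max C C', hC0.trans (le_max_left _ _), fun i hi G hG h1 h2 x hx => ?_⟩
      rcases Nat.lt_or_ge k i with h | h
      · obtain rfl : i = k + 1 := by omega
        exact (hC' G hG h1 h2 x hx).trans (le_max_right _ _)
      · exact (hC i h G hG h1 h2 x hx).trans (le_max_left _ _)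
  obtain ⟨D, hD0, hD⟩ := hC (n + 1)
  obtain ⟨C, hL⟩ := GUX_ball (GUX_L d) (GUX_smooth d) n (max D r)
  refine ⟨n.factorial * C * (max D 1) ^ n, fun G hG h1 h2 p hp hr => ?_⟩
  obtain ⟨-, -, -, hIG, -⟩ := hGIN d G hG
  obtain ⟨-, -, -, -, hX, -⟩ := hGXH d G hG
  have hdIG : ContDiff ℝ ∞ (fderiv ℝ (IG G)) := hIG.fderiv_right (by exact_mod_cast le_top)
  have hF : ContDiff ℝ ∞ fun q : P d => ((IG G q.1, fderiv ℝ (IG G) q.1, q.2) : GUX_W d) :=
    (hIG.comp contDiff_fst).prodMk ((hdIG.comp contDiff_fst).prodMk contDiff_snd)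
  have hXH : XH G = GUX_L d ∘ fun q : P d => ((IG G q.1, fderiv ℝ (IG G) q.1, q.2) : GUX_W d) := by
    ext1 q
    refine Prod.ext rfl ?_
    show (XH G q).2 = ∑ i : Fin d, (-(⟪fderiv ℝ (IG G) q.1 (EuclideanSpace.basisFun (Fin d) ℝ i) q.2, q.2⟫_ℝ / 2)) •
      EuclideanSpace.basisFun (Fin d) ℝ i
    have h3 := (EuclideanSpace.basisFun (Fin d) ℝ).sum_repr' (XH G q).2
    rw [← h3]
    refine Finset.sum_congr rfl fun i _ => ?_
    rw [real_inner_comm, hX]
  rw [hXH]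
  have hIG0 : ‖IG G p.1‖ ≤ D := by
    have := hD 0 (Nat.zero_le _) G hG h1 h2 p.1 hp
    rwa [norm_iteratedFDeriv_zero] at this
  have hIG1 : ‖fderiv ℝ (IG G) p.1‖ ≤ D := by
    have := hD 1 (by omega) G hG h1 h2 p.1 hp
    rwa [← zero_add 1, ← norm_iteratedFDeriv_fderiv, norm_iteratedFDeriv_zero] at this
  refine norm_iteratedFDeriv_comp_le (GUX_smooth d) hF (by exact_mod_cast le_top) p (fun i hi => hL i hi _ ?_)
    fun i hi1 hi => ?_
  · refine (norm_prod_le_iff.2 ⟨hIG0.trans (le_max_left _ _), norm_prod_le_iff.2 ⟨hIG1.trans (le_max_left _ _),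
      hr.trans (le_max_right _ _)⟩⟩)
  · have h4 : (max D 1) ≤ (max D 1) ^ i := le_self_pow₀ (le_max_right _ _) (by omega)
    refine le_trans ?_ h4
    refine GUX_prod (fun q : P d => IG G q.1) (fun q : P d => (fderiv ℝ (IG G) q.1, q.2)) (hIG.comp contDiff_fst)
      ((hdIG.comp contDiff_fst).prodMk contDiff_snd) p i _ ?_
      (GUX_prod (fun q : P d => fderiv ℝ (IG G) q.1) (fun q : P d => q.2) (hdIG.comp contDiff_fst) contDiff_snd p i _ ?_ ?_)
    · exact ((GUX_fst (IG G) hIG p i).trans (hD i (by omega) G hG h1 h2 p.1 hp)).trans (le_max_left _ _)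
    · refine ((GUX_fst (fderiv ℝ (IG G)) hdIG p i).trans ?_).trans (le_max_left _ _)
      rw [norm_iteratedFDeriv_fderiv]
      exact hD (i + 1) (by omega) G hG h1 h2 p.1 hp
    · exact (GUX_snd p i hi1).trans (le_max_right _ _)

end

end Pool.Agent.VD
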