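import Pool.Agent.helper84.VD.SpecB2

/-!
# Project VD (MP_07c750_an), row SFE: existence of frames
-/

set_option autoImplicit false

open scoped ContDiff Topology InnerProductSpace ENNReal
open MeasureTheory Filter Set

namespace Pool.Agent.VD

noncomputable section

/-- an orthonormal basis of a positive definite form -/
theorem SFE_basis (m : ℕ) (H : Type) [AddCommGroup H] [Module ℝ H] [FiniteDimensional ℝ H] (hm : Module.finrank ℝ H = m)
    (B : LinearMap.BilinForm ℝ H) (hs : ∀ u v, B u v = B v u) (hp : ∀ u, u ≠ 0 → 0 < B u u) :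
    ∃ b : Fin m → H, ∀ i j, B (b i) (b j) = if i = j then 1 else 0 := by
  subst hm
  obtain ⟨v, hv⟩ := LinearMap.BilinForm.exists_orthogonal_basis (B := B) ⟨fun u v => hs u v⟩
  have hpos : ∀ i, 0 < B (v i) (v i) := fun i => hp _ (v.ne_zero i)
  refine ⟨fun i => (1 / Real.sqrt (B (v i) (v i))) • v i, fun i j => ?_⟩
  rw [map_smul, map_smul, LinearMap.smul_apply, smul_eq_mul, smul_eq_mul]
  by_cases h : i = j
  · subst h
    rw [if_pos rfl]
    have h1 : Real.sqrt (B (v i) (v i)) * Real.sqrt (B (v i) (v i)) = B (v i) (v i) :=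
      Real.mul_self_sqrt (hpos i).le
    have h2 : Real.sqrt (B (v i) (v i)) ≠ 0 := (Real.sqrt_pos.2 (hpos i)).ne'
    field_simp
    rw [sq]
    exact h1.symm
  · rw [if_neg h]
    have h1 : B (v i) (v j) = 0 := hv h
    rw [h1, mul_zero, mul_zero]

theorem SFE_proof : SFE_stmt := by
  intro m G z hG hz
  have hz0 : z.2 ≠ 0 := by
    intro h
    unfold nrm at hz
    rw [h, map_zero, inner_zero_left, Real.sqrt_zero] at hz
    exact zero_ne_one hz
  have hfact : Fact (Module.finrank ℝ (V (m + 1)) = m + 1) := ⟨by simp⟩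
  have hfin : Module.finrank ℝ (Submodule.span ℝ {z.2})ᗮ = m := Submodule.finrank_orthogonal_span_singleton hz0
  let B : LinearMap.BilinForm ℝ (Submodule.span ℝ {z.2})ᗮ :=
    LinearMap.mk₂ ℝ (fun u v => ⟪G z.1 (u : V (m + 1)), (v : V (m + 1))⟫_ℝ)
      (fun u u' v => by simp [inner_add_left]) (fun c u v => by simp [inner_smul_left])
      (fun u v v' => by simp [inner_add_right]) (fun c u v => by simp [inner_smul_right])
  obtain ⟨b, hb⟩ := SFE_basis m (Submodule.span ℝ {z.2})ᗮ hfin B
    (fun u v => by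
      show ⟪G z.1 (u : V (m + 1)), (v : V (m + 1))⟫_ℝ = ⟪G z.1 (v : V (m + 1)), (u : V (m + 1))⟫_ℝ
      rw [hG.symm, real_inner_comm])
    (fun u hu => hG.pos z.1 (u : V (m + 1)) (by simpa using hu))
  have hb' : ∀ i j, ⟪G z.1 (b i : V (m + 1)), (b j : V (m + 1))⟫_ℝ = if i = j then 1 else 0 := hb
  let e0 : W m →ₗ[ℝ] V (m + 1) :=
    { toFun := fun a => ∑ i : Fin m, a i • (b i : V (m + 1))
      map_add' := fun x y => by simp [add_smul, Finset.sum_add_distrib]
      map_smul' := fun c x => by simp [Finset.smul_sum, smul_smul] }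
  have he : ∀ a : W m, LinearMap.toContinuousLinearMap e0 a = ∑ i : Fin m, a i • (b i : V (m + 1)) := fun a => rfl
  refine ⟨LinearMap.toContinuousLinearMap e0, fun a c => ?_, fun a => ?_⟩
  · rw [he, he, map_sum, sum_inner, PiLp.inner_apply]
    refine Finset.sum_congr rfl fun i _ => ?_
    rw [map_smul, inner_smul_left, inner_sum]
    have h1 : ∀ j ∈ (Finset.univ : Finset (Fin m)), ⟪G z.1 (b i : V (m + 1)), c j • (b j : V (m + 1))⟫_ℝ =
        if j = i then c i else 0 := by
      intro j _
      rw [inner_smul_right, hb']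
      by_cases h : j = i
      · subst h
        simp
      · rw [if_neg h, if_neg (Ne.symm h), mul_zero]
    rw [Finset.sum_congr rfl h1, Finset.sum_ite_eq' Finset.univ i, if_pos (Finset.mem_univ i)]
    simp [mul_comm]
  · rw [he, inner_sum]
    refine Finset.sum_eq_zero fun i _ => ?_
    rw [inner_smul_right]
    have h1 : ⟪z.2, (b i : V (m + 1))⟫_ℝ = 0 := Submodule.mem_orthogonal_singleton_iff_inner_right.1 (b i).2
    rw [h1, mul_zero]

end

end Pool.Agent.VD
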